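import Pool.Agent.Helper85.LN2.Orb
import Pool.Agent.Helper2.LN2.AM2

/-!
# AM2O: the index bound for amenable automaton groups, orbit version
-/

namespace Pool.Agent.Helper39.LN2

open Pool.Agent.Helper85.LN Pool.Agent.Helper85.LN2 Pool.Agent.Helper2.LN2

variable {m d : ℕ} {A : Auto (Fin m) (Fin d)}

/-- Conjugation by a section. -/
theorem exists_conj' {a x : Fin d} (hx : InOrb A a x) : ∃ k ∈ A.G, ∀ g, InL A x (k * g * k⁻¹) →
    InL A a g := by
  obtain ⟨t, ht, hta⟩ := hx
  obtain ⟨w, rfl⟩ := (A.mem_G_iff t).1 ht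
  rw [A.val_apply_cons] at hta
  have hx : A.toWA.ltw w a = x := by
    have := (List.cons.inj hta).1
    exact this
  refine ⟨A.val (A.toWA.scw w a), A.val_mem _, fun g hg => ?_⟩
  obtain ⟨s, hs, h⟩ := hg
  set k := A.val (A.toWA.scw w a) with hk
  have hw : ∀ u, A.val w (a :: u) = x :: k u := by
    intro u
    rw [A.val_apply_cons, hx]
  refine ⟨(A.val w)⁻¹ * s * A.val w, A.G.mul_mem (A.G.mul_mem (A.G.inv_mem ht) hs) ht,
    fun u => ?_⟩
  rw [Equiv.Perm.mul_apply, hw, Equiv.Perm.mul_apply, h, Equiv.Perm.inv_eq_iff_eq, hw]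
  simp

/-- Many elements in different cosets. -/
theorem exists_reps' {a : Fin d} {c : ℕ} (h : ¬ SecIdx A a c) (n : ℕ) (hn : n ≤ c + 1) :
    ∃ E : Finset (Equiv.Perm (List (Fin d))), E.card = n ∧ (∀ e ∈ E, e ∈ A.G) ∧
      ∀ e ∈ E, ∀ e' ∈ E, e ≠ e' → ¬ InL A a (e⁻¹ * e') := by
  classical
  induction n with
  | zero => exact ⟨∅, by simp, by simp, by simp⟩
  | succ n ih =>
    obtain ⟨E, hc, hG, hE⟩ := ih (by omega)
    have h1 : ¬ ∀ g ∈ A.G, ∃ e ∈ E, e ∈ A.G ∧ ∃ h ∈ A.G,
        ∀ w, h (a :: w) = a :: (e⁻¹ * g) w := by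
      intro h2
      exact h ⟨E, by omega, h2⟩
    push Not at h1
    obtain ⟨g, hg, h1⟩ := h1
    have h2 : ∀ e ∈ E, ¬ InL A a (e⁻¹ * g) := by
      rintro e he ⟨s, hs, hw⟩
      obtain ⟨w, hw'⟩ := h1 e he (hG e he) s hs
      exact hw' (hw w)
    have h3 : g ∉ E := by
      intro hgE
      apply h2 g hgE
      rw [inv_mul_cancel]
      exact inL_one a
    refine ⟨insert g E, by rw [Finset.card_insert_of_notMem h3, hc], ?_, ?_⟩
    · intro e he
      rcases Finset.mem_insert.1 he with rfl | he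
      · exact hg
      · exact hG e he
    · intro e he e' he' hne hL
      rcases Finset.mem_insert.1 he with h4 | h4
      · rcases Finset.mem_insert.1 he' with h5 | h5
        · exact hne (h4.trans h5.symm)
        · apply h2 e' h5
          rw [h4] at hL
          have := inL_inv hL
          rwa [mul_inv_rev, inv_inv] at this
      · rcases Finset.mem_insert.1 he' with h5 | h5
        · rw [h5] at hL
          exact h2 e h4 hL
        · exact hE e h4 e' h5 hne hL

theorem am2o : S_AM2O := by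
  classical
  intro hST hAM m d A a hLN hRec hA
  set O : Finset (Fin d) := Finset.univ.filter (fun x => InOrb A a x) with hO
  have hmem : ∀ x, x ∈ O ↔ InOrb A a x := by
    intro x
    rw [hO, Finset.mem_filter]
    exact ⟨fun h => h.2, fun h => ⟨Finset.mem_univ _, h⟩⟩
  have hcard : {x | InOrb A a x}.ncard = O.card := by
    rw [← Set.ncard_coe_finset]
    congr 1
    ext x
    exact (hmem x).symm
  rw [hcard]
  set c := O.card with hcdef
  by_contra hno
  have haO : a ∈ O := (hmem a).2 ⟨1, A.G.one_mem, rfl⟩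
  have hOne : O.Nonempty := ⟨a, haO⟩
  have hcpos : 0 < c := Finset.card_pos.2 hOne
  have hstab : ∀ q, ∀ x ∈ O, A.out q x ∈ O := by
    intro q x hx
    obtain ⟨g, hg, hgx⟩ := (hmem x).1 hx
    refine (hmem _).2 ⟨A.perm q * g, A.G.mul_mem (Subgroup.subset_closure ⟨q, rfl⟩) hg, ?_⟩
    rw [Equiv.Perm.mul_apply, hgx]
    rfl
  obtain ⟨E, hc, hG, hE⟩ := exists_reps' hno (c + 1) le_rfl
  -- representatives for every letter of the orbit
  have hx : ∀ x : Fin d, x ∈ O → ∃ E' : Finset (Equiv.Perm (List (Fin d))), E'.card = c + 1 ∧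
      (∀ e ∈ E', e ∈ A.G) ∧ ∀ e ∈ E', ∀ e' ∈ E', e ≠ e' → ¬ InL A x (e⁻¹ * e') := by
    intro x hxO
    obtain ⟨k, hk, hconj⟩ := exists_conj' ((hmem x).1 hxO)
    refine ⟨E.image (fun e => e * k⁻¹), ?_, ?_, ?_⟩
    · rw [Finset.card_image_of_injective _ (mul_left_injective _), hc]
    · intro e he
      obtain ⟨e0, he0, rfl⟩ := Finset.mem_image.1 he
      exact A.G.mul_mem (hG _ he0) (A.G.inv_mem hk)
    · intro e he e' he' hne hL
      obtain ⟨e0, he0, rfl⟩ := Finset.mem_image.1 he
      obtain ⟨e1, he1, rfl⟩ := Finset.mem_image.1 he'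
      apply hE e0 he0 e1 he1 (fun h => hne (by rw [h]))
      apply hconj
      have e2 : (e0 * k⁻¹)⁻¹ * (e1 * k⁻¹) = k * (e0⁻¹ * e1) * k⁻¹ := by group
      rw [← e2]
      exact hL
  choose! E' hc' hG' hE' using hx
  -- a common bound for the lengths
  have hlen : ∃ n : ℕ, ∀ x ∈ O, ∀ e ∈ E' x, ∃ w : List (S (Fin m)), A.val w = e ∧
      w.length ≤ n := by
    have h1 : ∀ e ∈ O.biUnion E', ∃ w : List (S (Fin m)), A.val w = e := by
      intro e he
      obtain ⟨x, hxO, hx⟩ := Finset.mem_biUnion.1 he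
      exact (A.mem_G_iff e).1 (hG' x hxO e hx)
    choose! f hf using h1
    refine ⟨(O.biUnion E').sup (fun e => (f e).length), fun x hxO e he => ?_⟩
    have h2 : e ∈ O.biUnion E' := Finset.mem_biUnion.2 ⟨x, hxO, he⟩
    exact ⟨f e, hf e h2, Finset.le_sup (f := fun e => (f e).length) h2⟩
  obtain ⟨n, hn⟩ := hlen
  -- the weights
  have hw : ∃ ω : Fin m → ℝ, (∀ q, 0 < ω q) ∧
      ∀ q', (∑ q, ∑ x ∈ O, if A.tr q x = q' then ω q else 0) = O.card * ω q' := by
    obtain ⟨ω, hω, hω'⟩ := hST m O.card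
      (fun q i => A.tr q (O.equivFin.symm i : Fin d)) (fun q u => by
        obtain ⟨v, hv, hrun⟩ := hRec q (u.map fun i => (O.equivFin.symm i : Fin d)) (by
          intro x hx
          rw [List.mem_map] at hx
          obtain ⟨i, _, rfl⟩ := hx
          exact (hmem _).1 (O.equivFin.symm i).2)
        have hv' : ∃ v' : List (Fin O.card),
            v'.map (fun i => (O.equivFin.symm i : Fin d)) = v := by
          have : v ∈ Set.range (List.map fun i => (O.equivFin.symm i : Fin d)) := by
            rw [Set.range_list_map]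
            intro x hx
            refine ⟨O.equivFin ⟨x, (hmem x).2 (hv x hx)⟩, ?_⟩
            simp
          exact this
        obtain ⟨v', rfl⟩ := hv'
        refine ⟨v', ?_⟩
        have h1 : A.run q ((u ++ v').map fun i => (O.equivFin.symm i : Fin d)) = q := by
          rw [List.map_append]
          exact hrun
        have h2 : A.run q ((u ++ v').map fun i => (O.equivFin.symm i : Fin d)) =
            ((u ++ v').map fun i => (O.equivFin.symm i : Fin d)).foldl A.tr q := rfl
        rw [h2, List.foldl_map] at h1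
        exact h1)
    refine ⟨ω, hω, fun q' => ?_⟩
    rw [← hω' q']
    refine Finset.sum_congr rfl fun q _ => ?_
    rw [← Finset.sum_coe_sort O fun x => if A.tr q x = q' then ω q else 0]
    exact (O.equivFin.symm.sum_comp
      (fun x : O => if A.tr q (x : Fin d) = q' then ω q else 0)).symm
  obtain ⟨ω, hω, hω'⟩ := hw
  obtain ⟨F, hFne, _, hFb, x, hxO, h, hh, hF1⟩ :=
    hAM m d A O ω hOne hstab hLN hω hω' hA (c * (c + 1) * n + 1)
  set N := c * (c + 1) * n + 1 with hN
  have hFb' : ∀ q, N * bd F (A.perm q) ≤ F.card := fun q => by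
    have := hFb q
    unfold bd
    convert this
  set F1 := F.filter fun g => InL A x (g * h⁻¹) with hF1def
  -- pieces
  let Pc : Equiv.Perm (List (Fin d)) → Finset (Equiv.Perm (List (Fin d))) := fun e =>
    (F1.image (fun f => e * f)).filter (· ∈ F)
  have hPc : ∀ e, F1.card ≤ (Pc e).card + bd F e := by
    intro e
    have h1 : (F1.image (fun f => e * f)).card = F1.card :=
      Finset.card_image_of_injective _ (mul_right_injective _)
    have h2 := Finset.card_filter_add_card_filter_not (s := F1.image (fun f => e * f)) (· ∈ F)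
    have h3 : ((F1.image (fun f => e * f)).filter (· ∉ F)).card ≤ bd F e := by
      unfold bd
      have h4 : (F1.image (fun f => e * f)).filter (· ∉ F) ⊆
          (F.filter fun f => e * f ∉ F).image (fun f => e * f) := by
        intro g hg
        rw [Finset.mem_filter, Finset.mem_image] at hg
        obtain ⟨⟨f, hf, rfl⟩, hg⟩ := hg
        rw [hF1def, Finset.mem_filter] at hf
        exact Finset.mem_image.2 ⟨f, Finset.mem_filter.2 ⟨hf.1, hg⟩, rfl⟩
      exact (Finset.card_le_card h4).trans Finset.card_image_le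
    have h5 : (Pc e).card = ((F1.image (fun f => e * f)).filter (· ∈ F)).card := rfl
    omega
  have hdisj : ∀ e ∈ E' x, ∀ e' ∈ E' x, e ≠ e' → Disjoint (Pc e) (Pc e') := by
    intro e he e' he' hne
    rw [Finset.disjoint_left]
    intro g hg hg'
    rw [Finset.mem_filter, Finset.mem_image] at hg hg'
    obtain ⟨⟨f, hf, rfl⟩, _⟩ := hg
    obtain ⟨⟨f', hf', hff⟩, _⟩ := hg'
    rw [hF1def, Finset.mem_filter] at hf hf'
    apply hE' x hxO e' he' e he (Ne.symm hne)
    have h1 : e'⁻¹ * e = (f' * h⁻¹) * (f * h⁻¹)⁻¹ := by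
      have h2 : e = e' * f' * f⁻¹ := by
        rw [hff]
        group
      rw [h2]
      group
    rw [h1]
    exact inL_mul hf'.2 (inL_inv hf.2)
  have hsum : ∑ e ∈ E' x, (Pc e).card ≤ F.card := by
    rw [← Finset.card_biUnion hdisj]
    apply Finset.card_le_card
    intro g hg
    obtain ⟨e, _, hg⟩ := Finset.mem_biUnion.1 hg
    exact (Finset.mem_filter.1 hg).2
  have hcE : (E' x).card = c + 1 := hc' x hxO
  have hsum2 : (c + 1) * F1.card ≤ F.card + ∑ e ∈ E' x, bd F e := by
    have h1 : ∑ e ∈ E' x, F1.card ≤ ∑ e ∈ E' x, ((Pc e).card + bd F e) :=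
      Finset.sum_le_sum fun e _ => hPc e
    rw [Finset.sum_const, hcE, smul_eq_mul, Finset.sum_add_distrib] at h1
    omega
  have hbd : N * ∑ e ∈ E' x, bd F e ≤ (c + 1) * (n * F.card) := by
    rw [Finset.mul_sum]
    have h1 : ∀ e ∈ E' x, N * bd F e ≤ n * F.card := by
      intro e he
      obtain ⟨w, rfl, hw⟩ := hn x hxO e he
      exact (bd_val F N hFb' w).trans (Nat.mul_le_mul_right _ hw)
    refine (Finset.sum_le_sum h1).trans ?_
    rw [Finset.sum_const, hcE, smul_eq_mul]
  have hpos : 0 < F.card := Finset.card_pos.2 hFne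
  have h1 : N * (c + 1) * F.card ≤ N * c * F.card + c * ((c + 1) * (n * F.card)) := by
    calc N * (c + 1) * F.card ≤ N * (c + 1) * (c * F1.card) := Nat.mul_le_mul_left _ hF1
      _ = N * c * ((c + 1) * F1.card) := by ring
      _ ≤ N * c * (F.card + ∑ e ∈ E' x, bd F e) := Nat.mul_le_mul_left _ hsum2
      _ = N * c * F.card + c * (N * ∑ e ∈ E' x, bd F e) := by ring
      _ ≤ N * c * F.card + c * ((c + 1) * (n * F.card)) :=
          Nat.add_le_add_left (Nat.mul_le_mul_left _ hbd) _
  have h2 : N * F.card ≤ (c * (c + 1) * n) * F.card := by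
    have e1 : N * (c + 1) * F.card = N * c * F.card + N * F.card := by ring
    have e2 : c * ((c + 1) * (n * F.card)) = (c * (c + 1) * n) * F.card := by ring
    rw [e1, e2] at h1
    exact Nat.le_of_add_le_add_left h1
  have h3 := Nat.le_of_mul_le_mul_right h2 hpos
  omega

end Pool.Agent.Helper39.LN2
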